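import Mathlib

set_option autoImplicit false

namespace Pool.Agent.Results.MP_d6bd81_co.Counter

open Module Finset

/-- Balanced configuration `(n_k)`; `I p l` says point `p` is incident with line `l`. -/
structure IsConfig {n : ℕ} (k : ℕ) (I : Fin n → Fin n → Bool) : Prop where
  two : 2 ≤ k
  pts : ∀ p, (univ.filter fun l => I p l = true).card = k
  lns : ∀ l, (univ.filter fun p => I p l = true).card = k
  lin : ∀ p q l l', p ≠ q → I p l = true → I q l = true → I p l' = true → I q l' = true → l = l'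

/-- The dual configuration. -/
def dual {n : ℕ} (I : Fin n → Fin n → Bool) : Fin n → Fin n → Bool := fun l p => I p l

/-- Geometric realization in `ℝ^m`. -/
structure Realization {n : ℕ} (I : Fin n → Fin n → Bool) (m : ℕ) where
  pt : Fin n → (Fin m → ℝ)
  ln : Fin n → AffineSubspace ℝ (Fin m → ℝ)
  pt_inj : Function.Injective pt
  ln_inj : Function.Injective ln
  line : ∀ l, finrank ℝ (ln l).direction = 1
  inc : ∀ p l, pt p ∈ ln l ↔ I p l = true

/-- Dimensions of affine hulls of realizations. -/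
def dims {n : ℕ} (I : Fin n → Fin n → Bool) : Set ℕ :=
  {d | ∃ (m : ℕ) (R : Realization I m),
    finrank ℝ (affineSpan ℝ (Set.range R.pt)).direction = d}

def LL : List (List ℕ) := [[0, 1, 2], [3, 4, 5], [6, 7, 8], [0, 4, 9], [1, 3, 10], [0, 5, 7], [2, 3, 7], [1, 5, 6], [2, 4, 6], [11, 12, 8], [13, 14, 8], [11, 13, 9], [12, 14, 9], [11, 14, 10], [12, 13, 10]]
def LD : List (List ℕ) := [[0, 3, 5], [0, 4, 7], [0, 6, 8], [1, 4, 6], [1, 3, 8], [1, 5, 7], [2, 7, 8], [2, 5, 6], [2, 9, 10], [3, 11, 12], [4, 13, 14], [9, 11, 13], [9, 12, 14], [10, 11, 14], [10, 12, 13]]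
def XX : List (List ℤ) := [[-8, 0, 0], [2, 0, 0], [8, 0, 0], [4, 4, 0], [-2, 4, 0], [-4, 4, 0], [-7, 6, 0], [0, 8, 0], [21, 14, 0], [1, 6, 0], [5, 6, 0], [25, 18, 0], [19, 12, 0], [-23, -6, 0], [10, 9, 0]]
def YY : List (List ℤ) := [[0, 0, 0], [1980, 0, 0], [0, 1980, 0], [1485, 1650, 0], [810, 1800, 0], [792, 880, 0], [7128, -7920, 0], [495, 1100, 0], [2970, -3300, 0], [0, 0, 1980], [0, -1760, 3740], [1782, 1452, 132], [594, 2244, -396], [297, 242, 1672], [-891, -3366, 5544]]

def I0 (p l : Fin 15) : Bool := (LL.getD l.val []).contains p.val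
def co (Z : List (List ℤ)) (p : Fin 15) (i : Fin 3) : ℤ := (Z.getD p.val []).getD i.val 0
def nth (M : List (List ℕ)) (j : ℕ) (l : Fin 15) : Fin 15 :=
  Fin.ofNat 15 ((M.getD l.val []).getD j 0)

noncomputable def mk (J : Fin 15 → Fin 15 → Bool) (X : Fin 15 → Fin 3 → ℤ) (a b : Fin 15 → Fin 15)
    (h1 : ∀ p q, (∀ i, X p i = X q i) → p = q) (h2 : ∀ l, a l ≠ b l)
    (h3 : ∀ p l, (∀ i j, (X p i - X (a l) i) * (X (b l) j - X (a l) j) =
      (X p j - X (a l) j) * (X (b l) i - X (a l) i)) ↔ J p l = true)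
    (h4 : ∀ l l', (∀ p, J p l = J p l') → l = l') : Realization J 3 :=
  have inj : Function.Injective fun p i => (X p i : ℝ) := fun p q h =>
    h1 p q fun i => Int.cast_injective (α := ℝ) (congrFun h i)
  have inc : ∀ p l, (fun i => (X p i : ℝ)) ∈
      line[ℝ, (fun i => (X (a l) i : ℝ)), (fun i => (X (b l) i : ℝ))] ↔ J p l = true := by
    intro p l
    rw [← h3, mem_affineSpan_pair_iff_exists_lineMap_eq]
    constructor
    · rintro ⟨r, hr⟩ i j
      have e1 := congrFun hr i
      have e2 := congrFun hr j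
      simp only [AffineMap.lineMap_apply, vsub_eq_sub, vadd_eq_add, Pi.add_apply, Pi.smul_apply,
        Pi.sub_apply, smul_eq_mul] at e1 e2
      have : ((X p i : ℝ) - X (a l) i) * (X (b l) j - X (a l) j) =
          (X p j - X (a l) j) * (X (b l) i - X (a l) i) := by
        rw [← e1, ← e2]; ring
      exact_mod_cast this
    · intro h
      have : ∃ j, X (a l) j ≠ X (b l) j := by
        by_contra hc
        push Not at hc
        exact h2 l (h1 _ _ hc)
      obtain ⟨j, hj⟩ := this
      have hj' : (X (b l) j : ℝ) - X (a l) j ≠ 0 := by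
        rw [sub_ne_zero]; exact_mod_cast hj.symm
      refine ⟨((X p j : ℝ) - X (a l) j) / (X (b l) j - X (a l) j), funext fun i => ?_⟩
      have e : ((X p i : ℝ) - X (a l) i) * (X (b l) j - X (a l) j) =
          (X p j - X (a l) j) * (X (b l) i - X (a l) i) := by exact_mod_cast h i j
      simp only [AffineMap.lineMap_apply, vsub_eq_sub, vadd_eq_add, Pi.add_apply, Pi.smul_apply,
        Pi.sub_apply, smul_eq_mul]
      field_simp
      linarith
  { pt := fun p i => (X p i : ℝ)
    ln := fun l => line[ℝ, (fun i => (X (a l) i : ℝ)), (fun i => (X (b l) i : ℝ))]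
    pt_inj := inj
    ln_inj := fun l l' h => h4 l l' fun p => by
      have e : line[ℝ, (fun i => (X (a l) i : ℝ)), (fun i => (X (b l) i : ℝ))] =
        line[ℝ, (fun i => (X (a l') i : ℝ)), (fun i => (X (b l') i : ℝ))] := h
      have := inc p l
      rw [e, inc p l'] at this
      exact Bool.eq_iff_iff.2 this.symm
    line := fun l => by
      rw [direction_affineSpan, vectorSpan_pair]
      exact finrank_span_singleton (vsub_ne_zero.2 fun h => h2 l (inj h))
    inc := inc }

noncomputable def R1 : Realization I0 3 :=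
  mk I0 (co XX) (nth LL 0) (nth LL 1) (by decide +kernel) (by decide +kernel) (by decide +kernel)
    (by decide +kernel)

noncomputable def R2 : Realization (dual I0) 3 :=
  mk (dual I0) (co YY) (nth LD 0) (nth LD 1) (by decide +kernel) (by decide +kernel)
    (by decide +kernel) (by decide +kernel)

lemma three : 3 ∈ dims (dual I0) := by
  refine ⟨3, R2, ?_⟩
  have : (affineSpan ℝ (Set.range R2.pt)).direction = ⊤ := by
    rw [direction_affineSpan, eq_top_iff]
    intro x _
    have m : ∀ p, R2.pt p - R2.pt 0 ∈ vectorSpan ℝ (Set.range R2.pt) := fun p =>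
      vsub_mem_vectorSpan ℝ ⟨p, rfl⟩ ⟨0, rfl⟩
    have e : x = (x 0 / 1980) • (R2.pt 1 - R2.pt 0) + (x 1 / 1980) • (R2.pt 2 - R2.pt 0) +
        (x 2 / 1980) • (R2.pt 9 - R2.pt 0) := by
      funext i
      fin_cases i <;> simp [R2, mk, co, YY]
    rw [e]
    exact add_mem (add_mem (Submodule.smul_mem _ _ (m 1)) (Submodule.smul_mem _ _ (m 2)))
      (Submodule.smul_mem _ _ (m 9))
  rw [this]
  simp

lemma par {m : ℕ} (R : Realization I0 m) (l x y z : Fin 15) (hxy : x ≠ y)
    (hx : I0 x l = true) (hy : I0 y l = true) (hz : I0 z l = true) :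
    ∃ t : ℝ, R.pt z = t • (R.pt y - R.pt x) + R.pt x := by
  have a := AffineSubspace.vsub_mem_direction ((R.inc y l).2 hy) ((R.inc x l).2 hx)
  have b := AffineSubspace.vsub_mem_direction ((R.inc z l).2 hz) ((R.inc x l).2 hx)
  have nz : (⟨_, a⟩ : (R.ln l).direction) ≠ 0 := fun h =>
    hxy (R.pt_inj (sub_eq_zero.1 (congrArg Subtype.val h))).symm
  obtain ⟨c, hc⟩ := (finrank_eq_one_iff_of_nonzero' _ nz).1 (R.line l) ⟨_, b⟩
  have := congrArg Subtype.val hc
  refine ⟨c, ?_⟩
  simp only [SetLike.mk_smul_mk, vsub_eq_sub] at this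
  rw [this, sub_add_cancel]

lemma org {m : ℕ} (S : AffineSubspace ℝ (Fin m → ℝ)) {o x y z : Fin m → ℝ} {a b : ℝ}
    (hx : x ∈ S) (hy : y ∈ S) (hz : z ∈ S) (h : ∀ i, x i - o i = a * (y i - o i) + b * (z i - o i))
    (hab : a + b ≠ 1) : o ∈ S := by
  have n : 1 - a - b ≠ 0 := fun e => hab (by linarith)
  have := S.smul_vsub_vadd_mem (a / (1 - a - b)) hx hy
    (S.smul_vsub_vadd_mem (b / (1 - a - b)) hx hz hx)
  convert this using 1
  funext i
  simp only [vsub_eq_sub, vadd_eq_add, Pi.add_apply, Pi.smul_apply, Pi.sub_apply, smul_eq_mul]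
  field_simp
  linear_combination (-1 : ℝ) * h i

lemma planar {m : ℕ} (R : Realization I0 m) :
    finrank ℝ (affineSpan ℝ (Set.range R.pt)).direction ≤ 2 := by
  set S := affineSpan ℝ (Set.range fun i : Fin 3 => R.pt (![0, 1, 3] i)) with hS
  have cl : ∀ l x y z : Fin 15, x ≠ y → I0 x l = true → I0 y l = true → I0 z l = true →
      R.pt x ∈ S → R.pt y ∈ S → R.pt z ∈ S := by
    intro l x y z hxy hx hy hz mx my
    obtain ⟨t, ht⟩ := par R l x y z hxy hx hy hz
    rw [ht]
    exact S.smul_vsub_vadd_mem t my mx mx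
  have p0 : R.pt 0 ∈ S := mem_affineSpan ℝ ⟨0, rfl⟩
  have p1 : R.pt 1 ∈ S := mem_affineSpan ℝ ⟨1, rfl⟩
  have p3 : R.pt 3 ∈ S := mem_affineSpan ℝ ⟨2, rfl⟩
  have p2 := cl 0 0 1 2 (by decide) rfl rfl rfl p0 p1
  have p10 := cl 4 1 3 10 (by decide) rfl rfl rfl p1 p3
  have p7 := cl 6 2 3 7 (by decide) rfl rfl rfl p2 p3
  have p5 := cl 5 0 7 5 (by decide) rfl rfl rfl p0 p7
  have p4 := cl 1 3 5 4 (by decide) rfl rfl rfl p3 p5
  have p6 := cl 7 1 5 6 (by decide) rfl rfl rfl p1 p5
  have p9 := cl 3 0 4 9 (by decide) rfl rfl rfl p0 p4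
  have p8 := cl 2 6 7 8 (by decide) rfl rfl rfl p6 p7
  have p11 : R.pt 11 ∈ S := by
    obtain ⟨a, ha⟩ := par R 9 11 8 12 (by decide) rfl rfl rfl
    obtain ⟨b, hb⟩ := par R 11 11 9 13 (by decide) rfl rfl rfl
    obtain ⟨c, hc⟩ := par R 13 11 10 14 (by decide) rfl rfl rfl
    obtain ⟨r, hr⟩ := par R 10 13 14 8 (by decide) rfl rfl rfl
    obtain ⟨s, hs⟩ := par R 12 12 14 9 (by decide) rfl rfl rfl
    obtain ⟨t, ht⟩ := par R 14 12 13 10 (by decide) rfl rfl rfl
    have a1 : a ≠ 1 := by
      rintro rfl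
      rw [one_smul, sub_add_cancel] at ha
      exact absurd (R.pt_inj ha) (by decide)
    have b0 : b ≠ 0 := by
      rintro rfl
      rw [zero_smul, zero_add] at hb
      exact absurd (R.pt_inj hb) (by decide)
    have c0 : c ≠ 0 := by
      rintro rfl
      rw [zero_smul, zero_add] at hc
      exact absurd (R.pt_inj hc) (by decide)
    have ha' := congrFun ha
    have hb' := congrFun hb
    have hc' := congrFun hc
    have hr' := congrFun hr
    have hs' := congrFun hs
    have ht' := congrFun ht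
    simp only [Pi.add_apply, Pi.smul_apply, Pi.sub_apply, smul_eq_mul] at ha' hb' hc' hr' hs' ht'
    have e1 : ∀ i, R.pt 8 i - R.pt 11 i =
        (1 - r) * b * (R.pt 9 i - R.pt 11 i) + r * c * (R.pt 10 i - R.pt 11 i) := fun i => by
      linear_combination hr' i + (1 - r) * hb' i + r * hc' i
    have e2 : ∀ i, R.pt 9 i - R.pt 11 i =
        (1 - s) * a * (R.pt 8 i - R.pt 11 i) + s * c * (R.pt 10 i - R.pt 11 i) := fun i => by
      linear_combination hs' i + (1 - s) * ha' i + s * hc' i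
    have e3 : ∀ i, R.pt 10 i - R.pt 11 i =
        (1 - t) * a * (R.pt 8 i - R.pt 11 i) + t * b * (R.pt 9 i - R.pt 11 i) := fun i => by
      linear_combination ht' i + (1 - t) * ha' i + t * hb' i
    by_contra hn
    have s1 : (1 - r) * b + r * c = 1 := by
      by_contra h; exact hn (org S p8 p9 p10 e1 h)
    have s2 : (1 - s) * a + s * c = 1 := by
      by_contra h; exact hn (org S p9 p8 p10 e2 h)
    have s3 : (1 - t) * a + t * b = 1 := by
      by_contra h; exact hn (org S p10 p8 p9 e3 h)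
    have : ∃ i, R.pt 9 i ≠ R.pt 10 i := by
      by_contra h
      push Not at h
      exact absurd (R.pt_inj (funext h)) (by decide)
    obtain ⟨i, hi⟩ := this
    have f1 := e1 i
    have f2 := e2 i
    have f3 := e3 i
    have hi' := sub_ne_zero.2 hi
    generalize R.pt 8 i = x at *
    generalize R.pt 9 i = y at *
    generalize R.pt 10 i = z at *
    generalize R.pt 11 i = o at *
    have g1 : x - z = (1 - r) * b * (y - z) := by linear_combination f1 + (z - o) * s1
    have g2 : y - z = (1 - s) * a * (x - z) := by linear_combination f2 + (z - o) * s2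
    have g3 : z - y = (1 - t) * a * (x - y) := by linear_combination f3 + (y - o) * s3
    have k2 : (1 - s) * a * ((1 - r) * b) = 1 := by
      apply mul_right_cancel₀ hi'
      linear_combination (-1 : ℝ) * g2 - (1 - s) * a * g1
    have k3 : (1 - t) * a * (r * c) = 1 := by
      apply mul_right_cancel₀ hi'
      linear_combination g3 + (1 - t) * a * g1 + (1 - t) * a * (y - z) * s1
    have m2 : s * ((1 - r) * b) = -r := by
      apply mul_right_cancel₀ c0
      linear_combination ((1 - r) * b) * s2 - k2 + s1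
    have m3 : t * (r * c) = -(1 - r) := by
      apply mul_right_cancel₀ b0
      linear_combination (r * c) * s3 - k3 + s1
    apply a1
    linear_combination (1 / 2 : ℝ) * k2 + (1 / 2 : ℝ) * k3 + (a / 2) * m2 + (a / 2) * m3
      - (a / 2) * s1
  have p12 := cl 9 11 8 12 (by decide) rfl rfl rfl p11 p8
  have p13 := cl 11 11 9 13 (by decide) rfl rfl rfl p11 p9
  have p14 := cl 13 11 10 14 (by decide) rfl rfl rfl p11 p10
  have le : affineSpan ℝ (Set.range R.pt) ≤ S := by
    rw [affineSpan_le]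
    rintro _ ⟨p, rfl⟩
    fin_cases p <;> assumption
  refine (Submodule.finrank_mono (AffineSubspace.direction_le le)).trans ?_
  rw [hS, direction_affineSpan]
  exact finrank_vectorSpan_range_le ℝ _ (by simp)

theorem result : ¬ ∀ (n k : ℕ) (I : Fin n → Fin n → Bool), IsConfig k I →
    ∀ d e : ℕ, IsGreatest (dims I) d → IsGreatest (dims (dual I)) e → d = e := by
  intro H
  have c : IsConfig 3 I0 :=
    ⟨by norm_num, by decide +kernel, by decide +kernel, by decide +kernel⟩
  have b1 : ∀ d ∈ dims I0, d ≤ 2 := by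
    rintro _ ⟨m, R, rfl⟩
    exact planar R
  have b2 : ∀ d ∈ dims (dual I0), d ≤ 14 := by
    rintro _ ⟨m, R, rfl⟩
    rw [direction_affineSpan]
    exact finrank_vectorSpan_range_le ℝ _ (by simp)
  have n1 : (dims I0).Nonempty := ⟨_, 3, R1, rfl⟩
  have m1 := Nat.sSup_mem n1 ⟨2, b1⟩
  have := H 15 3 I0 c _ _ ⟨m1, fun _ h => le_csSup ⟨2, b1⟩ h⟩
    ⟨Nat.sSup_mem ⟨3, three⟩ ⟨14, b2⟩, fun _ h => le_csSup ⟨14, b2⟩ h⟩
  have u := b1 _ m1
  have v := le_csSup ⟨14, b2⟩ three
  omega

end Pool.Agent.Results.MP_d6bd81_co.Counter
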